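import Mathlib
import Pool.Agent.K4H72.Til.Spec

/-! Piece T5 of MP_885f6d_mp. -/

open Set

namespace Pool.Agent.K4H72.Til

/-- T5: a point of P whose image is near to a given lattice vector -/
theorem near (P : Set ℂ) (D : ℝ) (hD : 0 < D) (hdense : ∀ x : ℂ, ∃ p ∈ P, ‖x - p‖ ≤ D / 4)
    (Φ : ℂ → ℤ × ℤ) (M : ℝ) (hM : 1 ≤ M)
    (hΦ : ∀ p ∈ P, ∀ p' ∈ P, ‖p - p'‖ ≤ D → ‖(M : ℂ) * (p - p') - E (Φ p - Φ p')‖ ≤ D / 8) :
    ∀ v : ℤ × ℤ, ∃ p ∈ P, ‖E (Φ p - v)‖ ≤ M * D := by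
  intro v
  by_contra hcon
  push Not at hcon
  have hMD : 0 < M * D := by positivity
  let S : Set ℝ := (fun p => ‖E (Φ p - v)‖) '' P
  obtain ⟨p0, hp0, -⟩ := hdense 0
  have hSne : S.Nonempty := ⟨_, mem_image_of_mem _ hp0⟩
  have hSbdd : BddBelow S := ⟨0, by rintro _ ⟨p, -, rfl⟩; exact norm_nonneg _⟩
  obtain ⟨s, ⟨p, hp, rfl⟩, hs⟩ := exists_lt_of_csInf_lt hSne
    (show sInf S < sInf S + M * D / 8 by linarith)
  simp only at hs
  set L := ‖E (Φ p - v)‖ with hL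
  have hLbig : M * D < L := hcon p hp
  have hLpos : 0 < L := hMD.trans hLbig
  -- the direction
  set w : ℂ := -E (Φ p - v) with hw
  have hwn : ‖w‖ = L := by rw [hw, norm_neg]
  set x : ℂ := p + ((D / (2 * L) : ℝ) : ℂ) * w with hx
  obtain ⟨p', hp', hxp⟩ := hdense x
  have hxp0 : ‖x - p‖ = D / 2 := by
    rw [hx, add_sub_cancel_left, norm_mul, hwn, Complex.norm_real, Real.norm_eq_abs,
      abs_of_pos (by positivity)]
    field_simp
  have hpp : ‖p' - p‖ ≤ D := by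
    have h1 : p' - p = (x - p) - (x - p') := by ring
    rw [h1]
    refine (norm_sub_le _ _).trans ?_
    rw [hxp0]; linarith
  have h2 := hΦ p' hp' p hp hpp
  have hE : E (Φ p' - v) = E (Φ p' - Φ p) + E (Φ p - v) := by
    simp only [E, Prod.fst_sub, Prod.snd_sub]
    push_cast
    ring
  have h3 : E (Φ p' - v) = -((M : ℂ) * (p' - p) - E (Φ p' - Φ p)) - (M : ℂ) * (x - p')
      + ((M * (D / (2 * L)) - 1 : ℝ) : ℂ) * w := by
    rw [hE, hx, hw]
    push_cast
    ring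
  have h4 : ‖E (Φ p' - v)‖ ≤ D / 8 + M * (D / 4) + (L - M * D / 2) := by
    rw [h3]
    refine (norm_add_le _ _).trans ?_
    have a1 : ‖-((M : ℂ) * (p' - p) - E (Φ p' - Φ p)) - (M : ℂ) * (x - p')‖ ≤
        D / 8 + M * (D / 4) := by
      refine (norm_sub_le _ _).trans ?_
      rw [norm_neg, norm_mul, Complex.norm_real, Real.norm_eq_abs, abs_of_pos (by linarith)]
      exact add_le_add h2 (mul_le_mul_of_nonneg_left hxp (by linarith))
    have a2 : ‖((M * (D / (2 * L)) - 1 : ℝ) : ℂ) * w‖ = L - M * D / 2 := by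
      rw [norm_mul, hwn, Complex.norm_real, Real.norm_eq_abs]
      have h5 : M * (D / (2 * L)) - 1 ≤ 0 := by
        have : M * (D / (2 * L)) = (M * D) / (2 * L) := by ring
        rw [this, sub_nonpos, div_le_one (by positivity)]
        linarith
      rw [abs_of_nonpos h5]
      field_simp
      ring
    rw [a2]
    linarith
  have h6 : sInf S ≤ ‖E (Φ p' - v)‖ := csInf_le hSbdd (mem_image_of_mem _ hp')
  nlinarith

end Pool.Agent.K4H72.Til
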