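import Pool.Agent.K4H59.TL.Spec

/-! Piece G7 (pc_share_rank) for helper59 (MP_885f6d_mp). -/

open Set

namespace Pool.Agent.K4H59.TL

variable {K : Set ℂ} {O : ℂ} {H : Finset (ℂ →L[ℝ] ℝ)} {f₀ h h' : ℂ →L[ℝ] ℝ} {j j' : ℕ}

private theorem clm_form (f : ℂ →L[ℝ] ℝ) (z : ℂ) : f z = z.re * f 1 + z.im * f Complex.I := by
  have h1 : z = z.re • (1 : ℂ) + z.im • Complex.I := by
    apply Complex.ext <;> simp
  conv_lhs => rw [h1]
  rw [map_add, map_smul, map_smul, smul_eq_mul, smul_eq_mul]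

private theorem clm_eq_of_two (f g : ℂ →L[ℝ] ℝ) (a b : ℂ) (c : ℝ) (hc : c ≠ 0) (hab : a ≠ b)
    (h1 : f a = c) (h2 : f b = c) (h3 : g a = c) (h4 : g b = c) : g = f := by
  rw [clm_form] at h1 h2 h3 h4
  have hD : a.re * b.im - a.im * b.re ≠ 0 := by
    intro hD
    apply hab
    have e1 : c * (b.re - a.re) = 0 := by
      have : c * (b.re - a.re) = (a.re * f 1 + a.im * f Complex.I) * b.re
          - (b.re * f 1 + b.im * f Complex.I) * a.re := by rw [h1, h2]; ring
      rw [this]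
      linear_combination (-(f Complex.I)) * hD
    have e2 : c * (b.im - a.im) = 0 := by
      have : c * (b.im - a.im) = (a.re * f 1 + a.im * f Complex.I) * b.im
          - (b.re * f 1 + b.im * f Complex.I) * a.im := by rw [h1, h2]; ring
      rw [this]
      linear_combination (f 1) * hD
    rcases mul_eq_zero.1 e1 with h | h
    · exact absurd h hc
    rcases mul_eq_zero.1 e2 with h' | h'
    · exact absurd h' hc
    apply Complex.ext <;> linarith
  have e1 : (a.re * b.im - a.im * b.re) * (g 1 - f 1) = 0 := by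
    linear_combination b.im * (h3 - h1) - a.im * (h4 - h2)
  have e2 : (a.re * b.im - a.im * b.re) * (g Complex.I - f Complex.I) = 0 := by
    linear_combination a.re * (h4 - h2) - b.re * (h3 - h1)
  have e3 : g 1 = f 1 := by
    rcases mul_eq_zero.1 e1 with h | h
    · exact absurd h hD
    · linarith
  have e4 : g Complex.I = f Complex.I := by
    rcases mul_eq_zero.1 e2 with h | h
    · exact absurd h hD
    · linarith
  ext z
  rw [clm_form g z, clm_form f z, e3, e4]

/-- PIECE G7.  The levels of the two pieces meet on the common edge, so `j' ≥ j`; if `j' = j` the functionals agree at two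
linearly independent vectors. -/
theorem pc_share_rank (hR : Rep K O H) (hA : Act H f₀ h) (hA' : Act H f₀ h')
    (hs : Share (pc H f₀ O h' j') (pc H f₀ O h (j + 1))) : (h' = h ∧ j' = j) ∨ j + 1 ≤ j' := by
  obtain ⟨e, ⟨⟨x, hx, y, hy, hxy⟩, φ, c, -, -, he⟩, -, φ', c', -, -, he'⟩ := hs
  have key : ∀ z ∈ e, h' (z - O) = h (z - O) ∧ (1 / 2 : ℝ) ^ (j' + 1) ≤ h (z - O) ∧
      h (z - O) ≤ (1 / 2 : ℝ) ^ (j + 1) := by
    intro z hz
    have hz1 : z ∈ pc H f₀ O h' j' := by
      have := hz; rw [he] at this; exact this.1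
    have hz2 : z ∈ pc H f₀ O h (j + 1) := by
      have := hz; rw [he'] at this; exact this.1
    obtain ⟨-, m1, l1, u1⟩ := hz1
    obtain ⟨-, m2, l2, u2⟩ := hz2
    have heq : h' (z - O) = h (z - O) := le_antisymm (m2 h' hA'.1) (m1 h hA.1)
    exact ⟨heq, heq ▸ l1, u2⟩
  obtain ⟨kx1, kx2, kx3⟩ := key x hx
  obtain ⟨ky1, ky2, ky3⟩ := key y hy
  have hjj : j ≤ j' := by
    by_contra hcon
    push Not at hcon
    have : (1 / 2 : ℝ) ^ (j + 1) < (1 / 2 : ℝ) ^ (j' + 1) :=
      pow_lt_pow_right_of_lt_one₀ (by norm_num) (by norm_num) (by omega)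
    linarith
  rcases Nat.lt_or_ge j j' with h1 | h1
  · exact Or.inr h1
  · have hj : j' = j := le_antisymm h1 hjj
    subst hj
    refine Or.inl ⟨?_, rfl⟩
    have hx4 : h (x - O) = (1 / 2 : ℝ) ^ (j' + 1) := le_antisymm kx3 kx2
    have hy4 : h (y - O) = (1 / 2 : ℝ) ^ (j' + 1) := le_antisymm ky3 ky2
    exact clm_eq_of_two h h' (x - O) (y - O) _ (by positivity) (fun hh => hxy (sub_left_injective hh)) hx4 hy4
      (kx1.trans hx4) (ky1.trans hy4)

end Pool.Agent.K4H59.TL
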