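import Mathlib

/-! Piece DS for helper47 (MP_9bce2c_an). -/

open Set Matrix

namespace Pool.Agent.K4H47.PM.H96

theorem perm_norm {n : ℕ} (q : ENNReal) [Fact (1 ≤ q)] (σ : Equiv.Perm (Fin n)) (x : Fin n → ℝ) :
    ‖(WithLp.toLp q (x ∘ σ) : PiLp q fun _ : Fin n => ℝ)‖ = ‖(WithLp.toLp q x : PiLp q fun _ : Fin n => ℝ)‖ := by
  have := (LinearIsometryEquiv.piLpCongrLeft q ℝ ℝ σ.symm).norm_map (WithLp.toLp q x)
  rw [← this]
  congr 1

theorem ds_contract {n : ℕ} (q : ENNReal) [Fact (1 ≤ q)] (W : Matrix (Fin n) (Fin n) ℝ)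
    (hW : W ∈ doublyStochastic ℝ (Fin n)) (x : Fin n → ℝ) :
    ‖(WithLp.toLp q (W.mulVec x) : PiLp q fun _ : Fin n => ℝ)‖ ≤
      ‖(WithLp.toLp q x : PiLp q fun _ : Fin n => ℝ)‖ := by
  have h1 : W ∈ convexHull ℝ {σ.permMatrix ℝ | σ : Equiv.Perm (Fin n)} := by
    rw [← doublyStochastic_eq_convexHull_permMatrix]
    exact hW
  have hconv : Convex ℝ {V : Matrix (Fin n) (Fin n) ℝ |
      ‖(WithLp.toLp q (V.mulVec x) : PiLp q fun _ : Fin n => ℝ)‖ ≤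
        ‖(WithLp.toLp q x : PiLp q fun _ : Fin n => ℝ)‖} := by
    intro U hU V hV a b ha hb hab
    simp only [Set.mem_ofPred_eq] at hU hV ⊢
    have e : (WithLp.toLp q ((a • U + b • V).mulVec x) : PiLp q fun _ : Fin n => ℝ) =
        a • WithLp.toLp q (U.mulVec x) + b • WithLp.toLp q (V.mulVec x) := by
      rw [Matrix.add_mulVec, Matrix.smul_mulVec, Matrix.smul_mulVec]
      rfl
    rw [e]
    refine (norm_add_le _ _).trans ?_
    rw [norm_smul, norm_smul, Real.norm_of_nonneg ha, Real.norm_of_nonneg hb]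
    calc a * ‖(WithLp.toLp q (U.mulVec x) : PiLp q fun _ : Fin n => ℝ)‖ +
          b * ‖(WithLp.toLp q (V.mulVec x) : PiLp q fun _ : Fin n => ℝ)‖
        ≤ a * ‖(WithLp.toLp q x : PiLp q fun _ : Fin n => ℝ)‖ + b * ‖(WithLp.toLp q x : PiLp q fun _ : Fin n => ℝ)‖ :=
          add_le_add (mul_le_mul_of_nonneg_left hU ha) (mul_le_mul_of_nonneg_left hV hb)
      _ = ‖(WithLp.toLp q x : PiLp q fun _ : Fin n => ℝ)‖ := by rw [← add_mul, hab, one_mul]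
  refine convexHull_min ?_ hconv h1
  rintro _ ⟨σ, rfl⟩
  simp only [Set.mem_ofPred_eq]
  rw [Matrix.permMatrix_mulVec]
  exact (perm_norm q _ x).le

end Pool.Agent.K4H47.PM.H96

namespace Pool.Agent.K4H47.PM

theorem ds_contract {n : ℕ} (q : ENNReal) [Fact (1 ≤ q)] (W : Matrix (Fin n) (Fin n) ℝ)
    (hW : W ∈ doublyStochastic ℝ (Fin n)) (x : Fin n → ℝ) :
    ‖(WithLp.toLp q (W.mulVec x) : PiLp q fun _ : Fin n => ℝ)‖ ≤
      ‖(WithLp.toLp q x : PiLp q fun _ : Fin n => ℝ)‖ := H96.ds_contract q W hW x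

end Pool.Agent.K4H47.PM
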