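import Mathlib

/-! Piece MON for helper47 (MP_9bce2c_an). -/

open Set

namespace Pool.Agent.K4H47.PM

theorem lp_mono {n : ℕ} (q : ENNReal) [Fact (1 ≤ q)] (x y : Fin n → ℝ) (h : ∀ i, |x i| ≤ |y i|) :
    ‖(WithLp.toLp q x : PiLp q fun _ : Fin n => ℝ)‖ ≤ ‖(WithLp.toLp q y : PiLp q fun _ : Fin n => ℝ)‖ := by
  rcases eq_or_ne q ⊤ with rfl | hq
  · rw [PiLp.norm_eq_ciSup, PiLp.norm_eq_ciSup]
    rcases isEmpty_or_nonempty (Fin n) with hn | hn
    · simp
    · exact ciSup_mono (Set.finite_range _).bddAbove (fun i => h i)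
  · have hq0 : 0 < q.toReal := by
      have h1 : (1 : ENNReal) ≤ q := Fact.out
      exact ENNReal.toReal_pos (by rintro rfl; simp at h1) hq
    rw [PiLp.norm_eq_sum hq0, PiLp.norm_eq_sum hq0]
    apply Real.rpow_le_rpow
    · exact Finset.sum_nonneg fun i _ => by positivity
    · apply Finset.sum_le_sum
      intro i _
      exact Real.rpow_le_rpow (norm_nonneg _) (h i) hq0.le
    · positivity

end Pool.Agent.K4H47.PM
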