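import Mathlib

/-! Piece SV for helper47 (MP_9bce2c_an). -/

open Set Matrix

namespace Pool.Agent.K4H47.PM.SV96

theorem norm_of_multiset {n : ℕ} (q : ENNReal) [Fact (1 ≤ q)] (x y : Fin n → ℝ)
    (h : (Finset.univ : Finset (Fin n)).val.map (fun i => ‖x i‖) = (Finset.univ : Finset (Fin n)).val.map (fun i => ‖y i‖)) :
    ‖(WithLp.toLp q x : PiLp q fun _ : Fin n => ℝ)‖ = ‖(WithLp.toLp q y : PiLp q fun _ : Fin n => ℝ)‖ := by
  rcases eq_or_ne q ⊤ with rfl | hq
  · rw [PiLp.norm_eq_ciSup, PiLp.norm_eq_ciSup]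
    have hr : Set.range (fun i => ‖x i‖) = Set.range (fun i => ‖y i‖) := by
      ext t
      have : t ∈ (Finset.univ : Finset (Fin n)).val.map (fun i => ‖x i‖) ↔
          t ∈ (Finset.univ : Finset (Fin n)).val.map (fun i => ‖y i‖) := by rw [h]
      simpa [Multiset.mem_map] using this
    exact congrArg sSup hr
  · have hq0 : 0 < q.toReal := by
      have h1 : (1 : ENNReal) ≤ q := Fact.out
      exact ENNReal.toReal_pos (by rintro rfl; simp at h1) hq
    rw [PiLp.norm_eq_sum hq0, PiLp.norm_eq_sum hq0]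
    congr 1
    have := congrArg (fun M : Multiset ℝ => (M.map (fun t => t ^ q.toReal)).sum) h
    simpa [Multiset.map_map, Finset.sum_eq_multiset_sum, Function.comp_def] using this

theorem roots_prod' {n : ℕ} (c : Fin n → ℂ) :
    (∏ i, (Polynomial.X - Polynomial.C (c i))).roots = (Finset.univ : Finset (Fin n)).val.map c := by
  rw [Polynomial.roots_prod]
  · simp
  · simp [Finset.prod_ne_zero_iff, Polynomial.X_sub_C_ne_zero]

theorem schatten_herm {n : ℕ} (q : ENNReal) [Fact (1 ≤ q)] (A : Matrix (Fin n) (Fin n) ℂ) (hA : A.IsHermitian) :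
    ‖(WithLp.toLp q (fun i => Real.sqrt ((Matrix.isHermitian_conjTranspose_mul_self A).eigenvalues i)) :
      PiLp q fun _ : Fin n => ℝ)‖ = ‖(WithLp.toLp q hA.eigenvalues : PiLp q fun _ : Fin n => ℝ)‖ := by
  have hAA : Aᴴ * A = Unitary.conjStarAlgAut ℂ _ hA.eigenvectorUnitary
      (diagonal (fun i => ((hA.eigenvalues i ^ 2 : ℝ) : ℂ))) := by
    rw [hA.eq]
    conv_lhs => rw [hA.spectral_theorem]
    rw [← map_mul, diagonal_mul_diagonal]
    congr 2
    funext i
    simp [sq]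
  have hch : (Aᴴ * A).charpoly = ∏ i, (Polynomial.X - Polynomial.C ((hA.eigenvalues i ^ 2 : ℝ) : ℂ)) := by
    conv_lhs => rw [hAA, Unitary.conjStarAlgAut_apply, charpoly_mul_comm, ← mul_assoc]
    simp [charpoly_diagonal]
  have hr1 := (Matrix.isHermitian_conjTranspose_mul_self A).roots_charpoly_eq_eigenvalues
  have hr2 : (Aᴴ * A).charpoly.roots = (Finset.univ : Finset (Fin n)).val.map
      (fun i => ((hA.eigenvalues i ^ 2 : ℝ) : ℂ)) := by
    rw [hch]
    exact roots_prod' (fun i => ((hA.eigenvalues i ^ 2 : ℝ) : ℂ))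
  rw [hr2] at hr1
  have hr3 := congrArg (fun M : Multiset ℂ => M.map (fun z => ‖Real.sqrt z.re‖)) hr1
  simp only [Multiset.map_map, Function.comp_def] at hr3
  apply norm_of_multiset
  rw [show (Finset.univ : Finset (Fin n)).val.map (fun i => ‖hA.eigenvalues i‖) =
    (Finset.univ : Finset (Fin n)).val.map (fun i => ‖Real.sqrt (((hA.eigenvalues i ^ 2 : ℝ) : ℂ)).re‖) from ?_]
  · rw [hr3]
    rfl
  · congr 1
    funext i
    rw [Complex.ofReal_re, Real.sqrt_sq_eq_abs, Real.norm_eq_abs, Real.norm_eq_abs, abs_abs]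

end Pool.Agent.K4H47.PM.SV96

namespace Pool.Agent.K4H47.PM

theorem schatten_herm {n : ℕ} (q : ENNReal) [Fact (1 ≤ q)] (A : Matrix (Fin n) (Fin n) ℂ) (hA : A.IsHermitian) :
    ‖(WithLp.toLp q (fun i => Real.sqrt ((Matrix.isHermitian_conjTranspose_mul_self A).eigenvalues i)) :
      PiLp q fun _ : Fin n => ℝ)‖ = ‖(WithLp.toLp q hA.eigenvalues : PiLp q fun _ : Fin n => ℝ)‖ :=
  SV96.schatten_herm q A hA

end Pool.Agent.K4H47.PM
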