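import Pool.Agent.K4H59.TL.Spec

/-! Piece M6 (newT_noLSE) for helper59 (MP_885f6d_mp), with share_iff (M7) as an explicit hypothesis. -/

open Set

namespace Pool.Agent.K4H59.TL.M6

open Pool.Agent.K4H59.TL
open Pool.Agent.K4H72.Til (IsPolygon ShareEdge IsTiling Tile Derivable Adj HasLocEig)

theorem sh_sh (s t : ℂ) (K : Set ℂ) : sh s (sh t K) = sh (s + t) K := by
  unfold sh
  rw [Set.image_image]
  simp only [add_assoc]

theorem sh_zero (K : Set ℂ) : sh 0 K = K := by
  unfold sh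
  simp

theorem sh_neg_sh (t : ℂ) (K : Set ℂ) : sh (-t) (sh t K) = K := by
  rw [sh_sh, neg_add_cancel, sh_zero]

theorem sh_interior (t : ℂ) (K : Set ℂ) : interior (sh t K) = sh t (interior K) := by
  have := (Homeomorph.addLeft t).image_interior K
  exact this.symm

theorem mem_sh {t x : ℂ} {K : Set ℂ} : x ∈ sh t K ↔ x - t ∈ K := by
  unfold sh
  constructor
  · rintro ⟨z, hz, rfl⟩
    simpa using hz
  · intro h
    exact ⟨x - t, h, by ring⟩

theorem sh_mono (t : ℂ) {K L : Set ℂ} (h : K ⊆ L) : sh t K ⊆ sh t L := Set.image_mono h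

theorem sh_polygon {K : Set ℂ} (t : ℂ) (hK : IsPolygon K) : IsPolygon (sh t K) := by
  classical
  obtain ⟨h1, h2, h3, F, hF, hKF⟩ := hK
  refine ⟨h1.image _, h2.image (by fun_prop), ?_, F.image (fun p => (p.1, p.2 + p.1 t)), ?_, ?_⟩
  · have : closure (interior (sh t K)) = sh t (closure (interior K)) := by
      rw [sh_interior]
      exact ((Homeomorph.addLeft t).image_closure _).symm
    rw [this]
    exact sh_mono t h3
  · intro p hp
    obtain ⟨q, hq, rfl⟩ := Finset.mem_image.1 hp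
    exact hF q hq
  · ext x
    rw [mem_sh, hKF]
    simp only [Set.mem_ofPred_eq, Finset.mem_image, forall_exists_index, and_imp, forall_apply_eq_imp_iff₂, map_sub]
    constructor
    · intro h p hp
      have := h p hp
      linarith
    · intro h p hp
      have := h p hp
      linarith

theorem sh_edge {K e : Set ℂ} (t : ℂ) (h : IsEdge K e) : IsEdge (sh t K) (sh t e) := by
  obtain ⟨h1, φ, c, hφ, hle, he⟩ := h
  refine ⟨h1.image (add_right_injective t), φ, c + φ t, hφ, ?_, ?_⟩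
  · intro x hx
    have := hle _ (mem_sh.1 hx)
    rw [map_sub] at this
    linarith
  · ext x
    rw [mem_sh, he]
    simp only [Set.mem_ofPred_eq, mem_sh, map_sub]
    constructor
    · rintro ⟨a, b⟩
      exact ⟨a, by linarith⟩
    · rintro ⟨a, b⟩
      exact ⟨a, by linarith⟩

theorem sh_share {K L : Set ℂ} (t : ℂ) (h : Share K L) : Share (sh t K) (sh t L) := by
  obtain ⟨e, h1, h2⟩ := h
  exact ⟨sh t e, sh_edge t h1, sh_edge t h2⟩

variable {C : Type} {T : Set (Tile C)} {rep : Set ℂ → Set ℂ} {t : Set ℂ → ℂ}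
  {D₀ : Set ℂ → Set (Set ℂ)} {ρ₀ : Set ℂ → Set ℂ → ℕ}

/-- PIECE M6, with `share_iff` as hypothesis; `newT` unfolded -/
theorem noLSE_of (hshare : ∀ {A B : Set ℂ}, IsPolygon A → IsPolygon B → (ShareEdge A B ↔ Share A B))
    (hT : IsTiling T) (h1 : ∀ K, K = sh (t K) (rep K)) (hD : ∀ K, IsPolygon K → GoodDec K (D₀ K) (ρ₀ K)) :
    ¬ HasLocEig {q : Tile (C × Set ℂ × Set ℂ) | ∃ s ∈ T, ∃ Q₀ ∈ D₀ (rep s.1),
      q = (sh (t s.1) Q₀, (s.2, rep s.1, Q₀))} := by
  classical
  set N : Set (Tile (C × Set ℂ × Set ℂ)) := {q : Tile (C × Set ℂ × Set ℂ) | ∃ s ∈ T, ∃ Q₀ ∈ D₀ (rep s.1),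
      q = (sh (t s.1) Q₀, (s.2, rep s.1, Q₀))} with hN
  have hrep : ∀ s ∈ T, IsPolygon (rep s.1) := by
    intro s hs
    have h3 : rep s.1 = sh (-t s.1) s.1 := by
      conv_rhs => rw [h1 s.1]
      have : t (sh (t s.1) (rep s.1)) = t s.1 := by rw [← h1 s.1]
      rw [this, sh_neg_sh]
    rw [h3]
    exact sh_polygon _ (hT.polygon s hs)
  rintro ⟨lam, ψ, hψ, hfin, heq⟩
  have hne : (Function.support ψ).Nonempty := Function.support_nonempty_iff.2 hψ
  obtain ⟨v, hv, hmax⟩ := Set.exists_max_image (Function.support ψ)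
    (fun q : N => ρ₀ q.1.2.2.1 q.1.2.2.2) hfin hne
  obtain ⟨s, hs, Q₀, hQ₀, hvq⟩ := v.2
  have hG := hD _ (hrep s hs)
  obtain ⟨W, hW, hWρ, hQW, hnext⟩ := hG.next Q₀ hQ₀
  let w : N := ⟨(sh (t s.1) W, (s.2, rep s.1, W)), ⟨s, hs, W, hW, rfl⟩⟩
  have hvr : ρ₀ v.1.2.2.1 v.1.2.2.2 = ρ₀ (rep s.1) Q₀ := by rw [hvq]
  have hψw : ψ w = 0 := by
    by_contra hcon
    have h4 := hmax w hcon
    simp only [hvr] at h4
    have h5 : ρ₀ (rep s.1) W ≤ ρ₀ (rep s.1) Q₀ := h4
    omega
  have hpolyD : ∀ s ∈ T, ∀ Q ∈ D₀ (rep s.1), IsPolygon (sh (t s.1) Q) := by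
    intro s hs Q hQ
    exact sh_polygon _ ((hD _ (hrep s hs)).poly Q hQ)
  -- the neighbours of w in the support
  have huniq : ∀ u : N, Adj u w → ψ u ≠ 0 → u = v := by
    intro u hu hψu
    obtain ⟨s', hs', Q', hQ', huq⟩ := u.2
    have hrk : ρ₀ (rep s'.1) Q' ≤ ρ₀ (rep s.1) Q₀ := by
      have h4 := hmax u hψu
      simp only [hvr] at h4
      rw [huq] at h4
      exact h4
    have hsh : Share (sh (t s'.1) Q') (sh (t s.1) W) := by
      have h5 := hu.2
      rw [huq] at h5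
      exact (hshare (hpolyD s' hs' Q' hQ') (hpolyD s hs W hW)).1 h5
    by_cases hss : s' = s
    · subst hss
      have h6 : Share Q' W := by
        have := sh_share (-t s'.1) hsh
        rwa [sh_neg_sh, sh_neg_sh] at this
      have hQW' : Q' ≠ W := by
        rintro rfl
        exact hu.1 (Subtype.ext huq)
      have h7 := hnext Q' hQ' hQW' h6 hrk
      subst h7
      exact Subtype.ext (huq.trans hvq.symm)
    · exfalso
      obtain ⟨e, ⟨⟨x, hx, -⟩, φ, c, -, -, he⟩, -, φ', c', -, -, he'⟩ := hsh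
      have hx1 : x ∈ sh (t s'.1) Q' := by
        have := hx; rw [he] at this; exact this.1
      have hx2 : x ∈ sh (t s.1) W := by
        have := hx; rw [he'] at this; exact this.1
      have hx3 : x ∈ interior s.1 := by
        have h8 : W ⊆ interior (rep s.1) := hG.inner W hW (by omega)
        have h9 := sh_mono (t s.1) h8 hx2
        rw [← sh_interior, ← h1 s.1] at h9
        exact h9
      have hx4 : x ∈ closure (interior s'.1) := by
        have h8 : Q' ⊆ rep s'.1 := (hD _ (hrep s' hs')).sub Q' hQ'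
        have h9 := sh_mono (t s'.1) h8 hx1
        rw [← h1 s'.1] at h9
        exact (hT.polygon s' hs').2.2.1 h9
      obtain ⟨y, hy1, hy2⟩ := mem_closure_iff.1 hx4 _ isOpen_interior hx3
      exact Set.disjoint_left.1 (hT.disj s' hs' s hs hss) hy2 hy1
  have hvw : Adj v w := by
    refine ⟨?_, ?_⟩
    · intro h
      rw [h] at hv
      exact hv hψw
    · rw [hvq]
      exact (hshare (hpolyD s hs Q₀ hQ₀) (hpolyD s hs W hW)).2 (sh_share _ hQW)
  have hw := heq w
  rw [hψw, mul_zero] at hw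
  have hsum : ∑ᶠ u ∈ {u : N | Adj u w}, (ψ u - 0) = ψ v := by
    rw [finsum_eq_single _ v]
    · rw [finsum_eq_if, if_pos (show v ∈ {u : N | Adj u w} from hvw), sub_zero]
    · intro u huv
      by_cases hu : u ∈ {u : N | Adj u w}
      · rw [finsum_eq_if, if_pos hu, sub_zero]
        by_contra hcon
        exact huv (huniq u hu hcon)
      · rw [finsum_eq_if, if_neg hu]
  rw [hsum] at hw
  exact hv hw

end Pool.Agent.K4H59.TL.M6
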