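import Pool.Agent.K4H72.Til.Spec

/-! Piece N1 (nbr_finite) for helper59 (MP_885f6d_mp): in a polygonal tiling every tile has finitely many neighbours. -/

open Set

namespace Pool.Agent.K4H59.TL.N1

open Pool.Agent.K4H72.Til (IsPolygon ShareEdge IsTiling Tile Adj)

theorem clm_form (f : ℂ →L[ℝ] ℝ) (z : ℂ) : f z = z.re * f 1 + z.im * f Complex.I := by
  have h1 : z = z.re • (1 : ℂ) + z.im • Complex.I := by
    apply Complex.ext <;> simp
  conv_lhs => rw [h1]
  rw [map_add, map_smul, map_smul, smul_eq_mul, smul_eq_mul]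

theorem clm_zero (f : ℂ →L[ℝ] ℝ) (h1 : f 1 = 0) (h2 : f Complex.I = 0) : f = 0 := by
  ext z
  rw [clm_form f z, h1, h2]
  simp

/-- two functionals which vanish at the same nonzero vector are proportional -/
theorem prop_of (f g : ℂ →L[ℝ] ℝ) (hf : f ≠ 0) {x y : ℂ} (hxy : x ≠ y) (h1 : f x = f y) (h2 : g x = g y) :
    ∃ c : ℝ, ∀ z, g z = c * f z := by
  have k1 : (x.re - y.re) * f 1 + (x.im - y.im) * f Complex.I = 0 := by
    rw [clm_form f x, clm_form f y] at h1
    linarith
  have k2 : (x.re - y.re) * g 1 + (x.im - y.im) * g Complex.I = 0 := by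
    rw [clm_form g x, clm_form g y] at h2
    linarith
  have hdet : f 1 * g Complex.I - f Complex.I * g 1 = 0 := by
    by_contra hcon
    apply hxy
    have e1 : (x.re - y.re) * (f 1 * g Complex.I - f Complex.I * g 1) = 0 := by
      linear_combination g Complex.I * k1 - f Complex.I * k2
    have e2 : (x.im - y.im) * (f 1 * g Complex.I - f Complex.I * g 1) = 0 := by
      linear_combination f 1 * k2 - g 1 * k1
    have e3 := (mul_eq_zero.1 e1).resolve_right hcon
    have e4 := (mul_eq_zero.1 e2).resolve_right hcon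
    apply Complex.ext <;> linarith
  by_cases h : f 1 = 0
  · have hI : f Complex.I ≠ 0 := fun h' => hf (clm_zero f h h')
    refine ⟨g Complex.I / f Complex.I, fun z => ?_⟩
    rw [clm_form f z, clm_form g z, h]
    have : g 1 = 0 := by
      rw [h] at hdet
      have : f Complex.I * g 1 = 0 := by linarith
      exact (mul_eq_zero.1 this).resolve_left hI
    rw [this]
    field_simp
    ring
  · refine ⟨g 1 / f 1, fun z => ?_⟩
    rw [clm_form f z, clm_form g z]
    have : g Complex.I = g 1 / f 1 * f Complex.I := by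
      field_simp
      linarith
    rw [this]
    field_simp

theorem poly_convex {A : Set ℂ} (hA : IsPolygon A) : Convex ℝ A := by
  obtain ⟨-, -, -, s, -, hs⟩ := hA
  rw [hs]
  intro x hx y hy a b ha hb hab
  intro p hp
  have h1 := hx p hp
  have h2 := hy p hp
  rw [map_add, map_smul, map_smul, smul_eq_mul, smul_eq_mul]
  have e : p.2 = a * p.2 + b * p.2 := by rw [← add_mul, hab, one_mul]
  rw [e]
  exact add_le_add (mul_le_mul_of_nonneg_left h1 ha) (mul_le_mul_of_nonneg_left h2 hb)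

theorem poly_int {A : Set ℂ} (hA : IsPolygon A) : (interior A).Nonempty := by
  obtain ⟨⟨x, hx⟩, -, h3, -⟩ := hA
  exact closure_nonempty_iff.1 ⟨x, h3 hx⟩

/-- separation of two polygons with disjoint interiors -/
theorem sep {A B : Set ℂ} (hA : IsPolygon A) (hB : IsPolygon B) (hd : Disjoint (interior A) (interior B)) :
    ∃ (f : ℂ →L[ℝ] ℝ) (c : ℝ), (∀ z ∈ A, f z ≤ c) ∧ (∀ z ∈ B, c ≤ f z) ∧ f ≠ 0 ∧ (∃ a ∈ A, f a < c) ∧
      ∃ b ∈ B, c < f b := by
  obtain ⟨f, c, h1, h2⟩ := geometric_hahn_banach_open_open (poly_convex hA).interior isOpen_interior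
    (poly_convex hB).interior isOpen_interior hd
  obtain ⟨a, ha⟩ := poly_int hA
  obtain ⟨b, hb⟩ := poly_int hB
  refine ⟨f, c, ?_, ?_, ?_, ⟨a, interior_subset ha, h1 a ha⟩, b, interior_subset hb, h2 b hb⟩
  · intro z hz
    have hz' := hA.2.2.1 hz
    exact closure_minimal (s := interior A) (t := {z | f z ≤ c}) (fun w hw => (h1 w hw).le)
      (isClosed_le f.continuous continuous_const) hz'
  · intro z hz
    have hz' := hB.2.2.1 hz
    exact closure_minimal (s := interior B) (t := {z | c ≤ f z}) (fun w hw => (h2 w hw).le)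
      (isClosed_le continuous_const f.continuous) hz'
  · rintro rfl
    have := (h1 a ha).trans (h2 b hb)
    simp at this

/-- three polygons with disjoint interiors have at most one common point -/
theorem three {A B D : Set ℂ} (hA : IsPolygon A) (hB : IsPolygon B) (hD : IsPolygon D)
    (hAB : Disjoint (interior A) (interior B)) (hAD : Disjoint (interior A) (interior D))
    (hBD : Disjoint (interior B) (interior D)) {x y : ℂ} (hxy : x ≠ y) (xA : x ∈ A) (yA : y ∈ A) (xB : x ∈ B)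
    (yB : y ∈ B) (xD : x ∈ D) (yD : y ∈ D) : False := by
  obtain ⟨f₁, c₁, a1, b1, n1, ⟨a, haA, ha⟩, b, hbB, hb⟩ := sep hA hB hAB
  obtain ⟨f₂, c₂, a2, b2, n2, -, d, hdD, hd⟩ := sep hA hD hAD
  obtain ⟨f₃, c₃, a3, b3, n3, -, -⟩ := sep hB hD hBD
  have x1 : f₁ x = c₁ := le_antisymm (a1 x xA) (b1 x xB)
  have y1 : f₁ y = c₁ := le_antisymm (a1 y yA) (b1 y yB)
  have x2 : f₂ x = c₂ := le_antisymm (a2 x xA) (b2 x xD)
  have y2 : f₂ y = c₂ := le_antisymm (a2 y yA) (b2 y yD)
  have x3 : f₃ x = c₃ := le_antisymm (a3 x xB) (b3 x xD)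
  have y3 : f₃ y = c₃ := le_antisymm (a3 y yB) (b3 y yD)
  obtain ⟨l, hl⟩ := prop_of f₁ f₂ n1 hxy (x1.trans y1.symm) (x2.trans y2.symm)
  obtain ⟨m, hm⟩ := prop_of f₁ f₃ n1 hxy (x1.trans y1.symm) (x3.trans y3.symm)
  have hc2 : c₂ = l * c₁ := by rw [← x2, hl, x1]
  have hc3 : c₃ = m * c₁ := by rw [← x3, hm, x1]
  have hl0 : 0 ≤ l := by
    have h := a2 a haA
    rw [hl, hc2] at h
    by_contra hcon
    push Not at hcon
    nlinarith
  have hd1 : c₁ < f₁ d := by
    rw [hl, hc2] at hd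
    by_contra hcon
    push Not at hcon
    nlinarith
  have hm0 : m ≤ 0 := by
    have h := a3 b hbB
    rw [hm, hc3] at h
    by_contra hcon
    push Not at hcon
    nlinarith
  have hm1 : 0 ≤ m := by
    have h := b3 d hdD
    rw [hm, hc3] at h
    by_contra hcon
    push Not at hcon
    nlinarith
  have hm2 : m = 0 := le_antisymm hm0 hm1
  apply n3
  ext z
  rw [hm z, hm2]
  simp

/-- an edge of a polygon lies in the line of one of the constraints and is the whole intersection with it -/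
theorem edge_constraint {A e : Set ℂ} {s : Finset ((ℂ →L[ℝ] ℝ) × ℝ)} (hs : ∀ p ∈ s, p.1 ≠ 0)
    (hA : A = {z | ∀ p ∈ s, p.1 z ≤ p.2}) (he : IsExposed ℝ A e) (hn : e.Nontrivial) (hne : e ≠ A) :
    ∃ p ∈ s, e = {z | z ∈ A ∧ p.1 z = p.2} := by
  obtain ⟨l, hl⟩ := he hn.nonempty
  obtain ⟨x, hx, y, hy, hxy⟩ := hn
  have hx' := hx
  have hy' := hy
  rw [hl] at hx' hy'
  obtain ⟨xA, xm⟩ := hx'
  obtain ⟨yA, ym⟩ := hy'
  have hlxy : l x = l y := le_antisymm (ym x xA) (xm y yA)
  have hl0 : l ≠ 0 := by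
    rintro rfl
    apply hne
    rw [hl]
    ext z
    simp
  set m : ℂ := (1 / 2 : ℝ) • x + (1 / 2 : ℝ) • y with hm
  have hlm : l m = l x := by
    rw [hm, map_add, map_smul, map_smul, ← hlxy, smul_eq_mul]
    ring
  -- m is not an interior point
  obtain ⟨w, hw⟩ : ∃ w : ℂ, 0 < l w := by
    by_contra hcon
    push Not at hcon
    apply hl0
    ext w
    have h1 := hcon w
    have h2 := hcon (-w)
    rw [map_neg] at h2
    have : l w = 0 := by linarith
    simpa using this
  have hex : ∃ p ∈ s, ¬ p.1 m < p.2 := by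
    by_contra hcon
    push Not at hcon
    have hopen : IsOpen {z : ℂ | ∀ p ∈ s, p.1 z < p.2} := by
      have : {z : ℂ | ∀ p ∈ s, p.1 z < p.2} = ⋂ p ∈ s, {z : ℂ | p.1 z < p.2} := by
        ext z; simp
      rw [this]
      exact isOpen_biInter_finset fun p _ => isOpen_lt p.1.continuous continuous_const
    have hcont : Filter.Tendsto (fun t : ℝ => m + t • w) (nhds 0) (nhds (m + (0 : ℝ) • w)) := by
      apply Continuous.tendsto
      fun_prop
    rw [zero_smul, add_zero] at hcont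
    have hev := hcont.eventually (hopen.mem_nhds (show m ∈ {z : ℂ | ∀ p ∈ s, p.1 z < p.2} from hcon))
    have hev2 : ∀ᶠ t : ℝ in nhdsWithin 0 (Set.Ioi 0), m + t • w ∈ {z : ℂ | ∀ p ∈ s, p.1 z < p.2} :=
      hev.filter_mono nhdsWithin_le_nhds
    obtain ⟨t, ht, ht0⟩ := (hev2.and self_mem_nhdsWithin).exists
    have htA : m + t • w ∈ A := by
      rw [hA]
      intro p hp
      exact (ht p hp).le
    have h5 := xm _ htA
    rw [map_add, map_smul, smul_eq_mul, hlm] at h5
    have h6 : 0 < t * l w := mul_pos ht0 hw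
    linarith
  obtain ⟨p, hp, hpm⟩ := hex
  push Not at hpm
  have hxp : p.1 x ≤ p.2 := by
    have := xA; rw [hA] at this; exact this p hp
  have hyp : p.1 y ≤ p.2 := by
    have := yA; rw [hA] at this; exact this p hp
  have hpm' : p.1 m = (1 / 2) * p.1 x + (1 / 2) * p.1 y := by
    rw [hm, map_add, map_smul, map_smul, smul_eq_mul, smul_eq_mul]
  have hx2 : p.1 x = p.2 := by linarith
  have hy2 : p.1 y = p.2 := by linarith
  obtain ⟨c, hc⟩ := prop_of p.1 l (hs p hp) hxy (hx2.trans hy2.symm) hlxy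
  have hc0 : c ≠ 0 := by
    rintro rfl
    apply hl0
    ext z
    rw [hc z]
    simp
  refine ⟨p, hp, ?_⟩
  rw [hl]
  ext z
  constructor
  · rintro ⟨zA, zm⟩
    refine ⟨zA, ?_⟩
    have h1 : l z = l x := le_antisymm (xm z zA) (zm x xA)
    rw [hc z, hc x] at h1
    have := mul_left_cancel₀ hc0 h1
    rw [this, hx2]
  · rintro ⟨zA, hz⟩
    refine ⟨zA, fun w hwA => ?_⟩
    have h1 : l z = l x := by rw [hc z, hc x, hz, hx2]
    rw [h1]
    exact xm w hwA

/-- PIECE N1 -/
theorem nbr_finite {C : Type} {T : Set (Tile C)} (hT : IsTiling T) (v : T) : {u : T | Adj u v}.Finite := by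
  classical
  have hv := hT.polygon v.1 v.2
  obtain ⟨s, hs, hA⟩ := hv.2.2.2
  have key : ∀ u : T, Adj u v → ∃ p ∈ s, {z | z ∈ v.1.1 ∧ p.1 z = p.2} ⊆ u.1.1 ∧
      {z | z ∈ v.1.1 ∧ p.1 z = p.2}.Nontrivial := by
    rintro u ⟨huv, e, h1, h2, h3, h4, h5⟩
    obtain ⟨p, hp, he⟩ := edge_constraint hs hA h2 h3 h5
    refine ⟨p, hp, ?_, ?_⟩
    · rw [← he]
      exact h1.subset
    · rw [← he]
      exact h3
  choose! q hq1 hq2 hq3 using key
  have hinj : Set.InjOn q {u : T | Adj u v} := by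
    intro u hu u' hu' huu
    by_contra hne
    obtain ⟨x, hx, y, hy, hxy⟩ := hq3 u hu
    have hx' := hx
    have hy' := hy
    rw [huu] at hx' hy'
    have d1 : u.1 ≠ v.1 := fun h => hu.1 (Subtype.ext h)
    have d2 : u'.1 ≠ v.1 := fun h => hu'.1 (Subtype.ext h)
    have d3 : u.1 ≠ u'.1 := fun h => hne (Subtype.ext h)
    exact three (hT.polygon u.1 u.2) (hT.polygon u'.1 u'.2) hv (hT.disj _ u.2 _ u'.2 d3) (hT.disj _ u.2 _ v.2 d1)
      (hT.disj _ u'.2 _ v.2 d2) hxy (hq2 u hu hx) (hq2 u hu hy) (hq2 u' hu' hx') (hq2 u' hu' hy') hx.1 hy.1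
  refine Set.Finite.of_finite_image (f := q) ?_ hinj
  refine s.finite_toSet.subset ?_
  rintro _ ⟨u, hu, rfl⟩
  exact hq1 u hu

end Pool.Agent.K4H59.TL.N1

namespace Pool.Agent.K4H59.TL

/-- PIECE N1: every tile of a polygonal tiling has finitely many neighbours -/
theorem nbr_finite {C : Type} {T : Set (Pool.Agent.K4H72.Til.Tile C)} (hT : Pool.Agent.K4H72.Til.IsTiling T) (v : T) :
    {u : T | Pool.Agent.K4H72.Til.Adj u v}.Finite := N1.nbr_finite hT v

end Pool.Agent.K4H59.TL
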