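import Mathlib
import Pool.Agent.K4H72.Til.Spec
import Pool.Agent.K4H43.TilT4
import Pool.Agent.K4H96.TilNear

/-! Piece T13 of MP_885f6d_mp. -/

open Set

namespace Pool.Agent.K4H72.Til

namespace T13

theorem Eadd (v w : ℤ × ℤ) : E (v + w) = E v + E w := by
  simp only [E, Prod.fst_add, Prod.snd_add]; push_cast; ring

theorem Esub (v w : ℤ × ℤ) : E (v - w) = E v - E w := by
  simp only [E, Prod.fst_sub, Prod.snd_sub]; push_cast; ring

theorem Ege (v : ℤ × ℤ) (hv : v ≠ 0) : 1 ≤ ‖E v‖ := by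
  have hre : (E v).re = v.1 + v.2 * (1 / 2) := by
    simp [E, ζ]
  have him : (E v).im = v.2 * (Real.sqrt 3 / 2) := by
    simp [E, ζ]
  have h3 : Real.sqrt 3 * Real.sqrt 3 = 3 := Real.mul_self_sqrt (by norm_num)
  have hsq : ‖E v‖ ^ 2 = (v.1 : ℝ) ^ 2 + v.1 * v.2 + (v.2 : ℝ) ^ 2 := by
    rw [← Complex.normSq_eq_norm_sq, Complex.normSq_apply, hre, him]
    nlinarith
  have hint : (1 : ℤ) ≤ v.1 ^ 2 + v.1 * v.2 + v.2 ^ 2 := by
    by_contra hcon
    push Not at hcon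
    have h0 : v.1 ^ 2 + v.1 * v.2 + v.2 ^ 2 ≤ 0 := by omega
    have h1 : v.2 ^ 2 ≤ 0 := by nlinarith [sq_nonneg (2 * v.1 + v.2)]
    have h2 : v.1 ^ 2 ≤ 0 := by nlinarith [sq_nonneg (2 * v.2 + v.1)]
    have e1 : v.1 = 0 := by nlinarith [sq_nonneg v.1, pow_eq_zero_iff (two_ne_zero) |>.mp (le_antisymm h2 (sq_nonneg v.1))]
    have e2 : v.2 = 0 := pow_eq_zero_iff (two_ne_zero) |>.mp (le_antisymm h1 (sq_nonneg v.2))
    exact hv (Prod.ext e1 e2)
  have hreal : (1 : ℝ) ≤ (v.1 : ℝ) ^ 2 + v.1 * v.2 + (v.2 : ℝ) ^ 2 := by exact_mod_cast hint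
  have hn := norm_nonneg (E v)
  nlinarith

end T13

open T13 in
/-- T13, from T1 and T2 -/
theorem deform_of
    (happ : ∀ (F : Set ℂ) (_ : F.Finite) (η : ℝ) (_ : 0 < η),
      ∃ M : ℕ, 0 < M ∧ ∃ φ : AddSubgroup.closure F →+ ℤ × ℤ,
        ∀ f (hf : f ∈ F), ‖(M : ℂ) * f - E (φ ⟨f, AddSubgroup.subset_closure hf⟩)‖ ≤ η)
    (hch : ∃ c : Set ℂ → ℂ, (∀ A : Set ℂ, A.Finite → A.Nonempty → c A ∈ A) ∧
      ∀ (A : Set ℂ) (t : ℂ), A.Finite → A.Nonempty → c ((fun z => z + t) '' A) = c A + t)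
    (P : Set ℂ) (D : ℝ) (hD : 0 < D) (hdense : ∀ x : ℂ, ∃ p ∈ P, ‖x - p‖ ≤ D / 4)
    (hfin : {d : ℂ | ∃ p ∈ P, ∃ p' ∈ P, d = p - p' ∧ ‖d‖ ≤ 8 * D}.Finite) :
    ∃ (h : ℝ) (g : ℤ × ℤ → ℂ), Def1 h g ∧ ∀ R2 : ℝ, ∃ R : ℝ, ∀ x y : ℂ,
      (∀ p : ℂ, ‖p‖ < R → (x + p ∈ P ↔ y + p ∈ P)) →
        ∃ τ : ℤ × ℤ, ∀ v, ‖g v - x‖ ≤ R2 → g (v + τ) = g v + (y - x) := by
  classical
  set F : Set ℂ := {d : ℂ | ∃ p ∈ P, ∃ p' ∈ P, d = p - p' ∧ ‖d‖ ≤ 8 * D} with hF
  -- the constant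
  obtain ⟨η, hη, hη1, hη2⟩ : ∃ η : ℝ, 0 < η ∧ η ≤ D / 8 ∧ η * (18 + 8 / D) ≤ 1 / 20 := by
    have hpos : 0 < 18 + 8 / D := by positivity
    refine ⟨min (D / 8) (1 / 20 / (18 + 8 / D)), by positivity, min_le_left _ _, ?_⟩
    calc min (D / 8) (1 / 20 / (18 + 8 / D)) * (18 + 8 / D)
        ≤ (1 / 20 / (18 + 8 / D)) * (18 + 8 / D) :=
          mul_le_mul_of_nonneg_right (min_le_right _ _) hpos.le
      _ = 1 / 20 := by field_simp
  obtain ⟨M, hM0, φ, hφ⟩ := happ F hfin η hη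
  obtain ⟨c, hc1, hc2⟩ := hch
  have hM1 : (1 : ℝ) ≤ M := by exact_mod_cast hM0
  have hMpos : (0 : ℝ) < M := by linarith
  obtain ⟨p0, hp0, -⟩ := hdense 0
  have hmem : ∀ p ∈ P, ∀ p' ∈ P, p - p' ∈ AddSubgroup.closure F :=
    mem_closure P D hD hdense (AddSubgroup.closure F) (by
      intro p hp p' hp' hpp
      exact AddSubgroup.subset_closure ⟨p, hp, p', hp', rfl, by linarith⟩)
  -- the map Φ
  let Φ : ℂ → ℤ × ℤ := fun p => if h : p - p0 ∈ AddSubgroup.closure F then φ ⟨p - p0, h⟩ else 0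
  have hΦval : ∀ p (hp : p ∈ P), Φ p = φ ⟨p - p0, hmem p hp p0 hp0⟩ := by
    intro p hp
    simp only [Φ, dif_pos (hmem p hp p0 hp0)]
  have hΦsub : ∀ p (hp : p ∈ P) p' (hp' : p' ∈ P), Φ p - Φ p' = φ ⟨p - p', hmem p hp p' hp'⟩ := by
    intro p hp p' hp'
    rw [hΦval p hp, hΦval p' hp', ← map_sub]
    congr 1
    apply Subtype.ext
    show p - p0 - (p' - p0) = p - p'
    ring
  have hΦtr : ∀ p (_ : p ∈ P) p1 (_ : p1 ∈ P) q (_ : q ∈ P) q1 (_ : q1 ∈ P), p - p1 = q - q1 →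
      Φ p - Φ p1 = Φ q - Φ q1 := by
    intro p hp p1 hp1 q hq q1 hq1 he
    rw [hΦsub p hp p1 hp1, hΦsub q hq q1 hq1]
    congr 1
    exact Subtype.ext he
  have hΦ8 : ∀ p ∈ P, ∀ p' ∈ P, ‖p - p'‖ ≤ 8 * D →
      ‖(M : ℂ) * (p - p') - E (Φ p - Φ p')‖ ≤ η := by
    intro p hp p' hp' hpp
    rw [hΦsub p hp p' hp']
    exact hφ (p - p') ⟨p, hp, p', hp', rfl, hpp⟩
  let u : ℂ → ℂ := fun p => (M : ℂ) * p - E (Φ p)
  have husub : ∀ p p', u p - u p' = (M : ℂ) * (p - p') - E (Φ p - Φ p') := by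
    intro p p'
    simp only [u, Esub]; ring
  have hlip : ∀ p ∈ P, ∀ p' ∈ P, ‖u p - u p'‖ ≤ η * (1 + 4 * ‖p - p'‖ / D) :=
    lip P D hD hdense u η hη.le (by
      intro p hp p' hp' hpp
      rw [husub]
      exact hΦ8 p hp p' hp' (by linarith))
  let N : ℤ × ℤ → Set ℂ := fun v => {p | p ∈ P ∧ ‖E (Φ p - v)‖ ≤ M * D}
  have hNne : ∀ v, (N v).Nonempty := by
    intro v
    obtain ⟨p, hp, h⟩ := near P D hD hdense Φ (M : ℝ) hM1 (by
      intro p hp p' hp' hpp
      have := hΦ8 p hp p' hp' (by linarith)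
      simpa using this.trans hη1) v
    exact ⟨p, hp, h⟩
  -- distances
  have hdist : ∀ v w p q, p ∈ N v → q ∈ N w → ‖p - q‖ ≤ 17 / 4 * D + 2 / M * ‖E (v - w)‖ := by
    intro v w p q hp hq
    have h1 := hlip p hp.1 q hq.1
    rw [husub] at h1
    have h2 : ‖(M : ℂ) * (p - q)‖ ≤ ‖(M : ℂ) * (p - q) - E (Φ p - Φ q)‖ + ‖E (Φ p - Φ q)‖ := by
      have := norm_add_le ((M : ℂ) * (p - q) - E (Φ p - Φ q)) (E (Φ p - Φ q))
      simpa using this
    have h3 : ‖E (Φ p - Φ q)‖ ≤ 2 * (M * D) + ‖E (v - w)‖ := by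
      have e : E (Φ p - Φ q) = E (Φ p - v) - E (Φ q - w) + E (v - w) := by
        simp only [Esub]; ring
      rw [e]
      refine (norm_add_le _ _).trans ?_
      have := norm_sub_le (E (Φ p - v)) (E (Φ q - w))
      linarith [hp.2, hq.2]
    have h4 : ‖(M : ℂ) * (p - q)‖ = M * ‖p - q‖ := by
      rw [norm_mul, Complex.norm_natCast]
    have h5 : η * (1 + 4 * ‖p - q‖ / D) ≤ D / 8 + ‖p - q‖ / 2 := by
      calc η * (1 + 4 * ‖p - q‖ / D) ≤ D / 8 * (1 + 4 * ‖p - q‖ / D) :=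
            mul_le_mul_of_nonneg_right hη1 (by positivity)
        _ = D / 8 + ‖p - q‖ / 2 := by field_simp; ring
    rw [h4] at h2
    have h6 : M * ‖p - q‖ ≤ 2 * (M * D) + ‖E (v - w)‖ + D / 8 + ‖p - q‖ / 2 := by linarith
    have h7 : ‖p - q‖ / 2 ≤ M * ‖p - q‖ / 2 := by nlinarith [norm_nonneg (p - q)]
    have h8 : D / 8 ≤ M * D / 8 := by nlinarith
    have h9 : M * ‖p - q‖ ≤ M * (17 / 4 * D + 2 / M * ‖E (v - w)‖) := by
      have : M * (17 / 4 * D + 2 / M * ‖E (v - w)‖) = 17 / 4 * (M * D) + 2 * ‖E (v - w)‖ := by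
        field_simp
      rw [this]; linarith
    exact le_of_mul_le_mul_left h9 hMpos
  have hE0 : E 0 = 0 := by simp [E]
  have hdist0 : ∀ v p q, p ∈ N v → q ∈ N v → ‖p - q‖ ≤ 6 * D := by
    intro v p q hp hq
    have := hdist v v p q hp hq
    rw [sub_self, hE0, norm_zero, mul_zero, add_zero] at this
    linarith
  have hNfin : ∀ v, (N v).Finite := by
    intro v
    obtain ⟨p, hp⟩ := hNne v
    refine (hfin.image (fun d => p - d)).subset ?_
    intro q hq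
    refine ⟨p - q, ⟨p, hp.1, q, hq.1, rfl, ?_⟩, by ring⟩
    have := hdist0 v p q hp hq
    linarith
  have hcu : ∀ v, ∃ p ∈ N v, c (u '' N v) = u p := by
    intro v
    obtain ⟨p, hp, he⟩ := hc1 (u '' N v) ((hNfin v).image u) ((hNne v).image u)
    exact ⟨p, hp, he.symm⟩
  have hMC : (M : ℂ) ≠ 0 := by exact_mod_cast hM0.ne'
  let g : ℤ × ℤ → ℂ := fun v => (E v + c (u '' N v)) / M
  refine ⟨1 / M, g, ⟨by positivity, ?_⟩, ?_⟩
  · intro v w
    by_cases hvw : v = w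
    · subst hvw
      simp [hE0]
    · obtain ⟨p, hp, hcp⟩ := hcu v
      obtain ⟨q, hq, hcq⟩ := hcu w
      have e1 : g v - g w - ((1 / (M : ℝ) : ℝ) : ℂ) * E (v - w) = (u p - u q) / M := by
        simp only [g, hcp, hcq, Esub]
        push_cast
        field_simp
        ring
      rw [e1, norm_div, Complex.norm_natCast]
      have h1 := hlip p hp.1 q hq.1
      have h2 := hdist v w p q hp hq
      have h3 := Ege (v - w) (sub_ne_zero.mpr hvw)
      set e := ‖E (v - w)‖ with he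
      have h4 : ‖p - q‖ ≤ 17 / 4 * D + 2 * e := by
        refine h2.trans ?_
        have : 2 / (M : ℝ) * e ≤ 2 * e := by
          apply mul_le_mul_of_nonneg_right _ (by linarith)
          rw [div_le_iff₀ hMpos]; linarith
        linarith
      have h5 : 4 * ‖p - q‖ / D ≤ 17 + 8 / D * e := by
        rw [div_le_iff₀ hD]
        have : (17 + 8 / D * e) * D = 17 * D + 8 * e := by field_simp
        rw [this]; linarith
      have h8 : 0 < 8 / D := by positivity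
      have h6 : ‖u p - u q‖ ≤ η * ((18 + 8 / D) * e) := by
        refine h1.trans ?_
        apply mul_le_mul_of_nonneg_left _ hη.le
        nlinarith
      have h7 : ‖u p - u q‖ ≤ 1 / 20 * e := by
        refine h6.trans ?_
        rw [← mul_assoc]
        exact mul_le_mul_of_nonneg_right hη2 (by linarith)
      calc ‖u p - u q‖ / M ≤ (1 / 20 * e) / M := by
            apply div_le_div_of_nonneg_right h7 hMpos.le
        _ = 1 / 20 * (1 / M) * e := by ring
  · intro R2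
    refine ⟨|R2| + 14 * D + 1, fun x y hxy => ?_⟩
    have hR2 := le_abs_self R2
    have hR20 := abs_nonneg R2
    -- translation of points
    have htr : ∀ p, ‖p - x‖ < |R2| + 14 * D + 1 → (p ∈ P ↔ p + (y - x) ∈ P) := by
      intro p hp
      have := hxy (p - x) hp
      rw [add_sub_cancel, show y + (p - x) = p + (y - x) by ring] at this
      exact this
    obtain ⟨p1, hp1, hxp1⟩ := hdense x
    have hp1' : p1 + (y - x) ∈ P := by
      refine (htr p1 ?_).mp hp1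
      rw [← norm_neg, neg_sub]; linarith
    refine ⟨Φ (p1 + (y - x)) - Φ p1, fun v hv => ?_⟩
    set τ := Φ (p1 + (y - x)) - Φ p1 with hτ
    have hshift : ∀ p, p ∈ P → p + (y - x) ∈ P → Φ (p + (y - x)) = Φ p + τ := by
      intro p hp hp'
      have := hΦtr (p + (y - x)) hp' (p1 + (y - x)) hp1' p hp p1 hp1 (by ring)
      rw [hτ]
      have e : Φ (p + (y - x)) = (Φ (p + (y - x)) - Φ (p1 + (y - x))) + Φ (p1 + (y - x)) := by
        abel
      rw [e, this]; abel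
    -- the points of N v are near x
    obtain ⟨q, hq, hcq⟩ := hcu v
    have hgq : ‖g v - q‖ ≤ D := by
      have e1 : g v - q = -(E (Φ q - v)) / M := by
        simp only [g, hcq, u, Esub]
        field_simp
        ring
      rw [e1, norm_div, norm_neg, Complex.norm_natCast, div_le_iff₀ hMpos]
      linarith [hq.2]
    have hqx : ‖q - x‖ ≤ |R2| + D := by
      have e : q - x = (g v - x) - (g v - q) := by ring
      rw [e]
      refine (norm_sub_le _ _).trans ?_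
      linarith
    have hnear : ∀ p ∈ N v, ‖p - x‖ ≤ |R2| + 7 * D := by
      intro p hp
      have h1 := hdist0 v p q hp hq
      have e : p - x = (p - q) + (q - x) := by ring
      rw [e]
      refine (norm_add_le _ _).trans ?_
      linarith
    have hfwd : ∀ p ∈ N v, p + (y - x) ∈ N (v + τ) := by
      intro p hp
      have h1 := hnear p hp
      have h2 : p + (y - x) ∈ P := (htr p (by linarith)).mp hp.1
      refine ⟨h2, ?_⟩
      rw [hshift p hp.1 h2]
      have e : Φ p + τ - (v + τ) = Φ p - v := by abel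
      rw [e]; exact hp.2
    have hbwd : ∀ p' ∈ N (v + τ), ∃ p ∈ N v, p + (y - x) = p' := by
      intro p' hp'
      have h1 := hdist0 (v + τ) p' (q + (y - x)) hp' (hfwd q hq)
      have h2 : ‖(p' - (y - x)) - x‖ < |R2| + 14 * D + 1 := by
        have e : (p' - (y - x)) - x = (p' - (q + (y - x))) + (q - x) := by ring
        rw [e]
        refine lt_of_le_of_lt (norm_add_le _ _) ?_
        linarith
      have h3 : p' - (y - x) ∈ P := by
        rw [htr _ h2, sub_add_cancel]; exact hp'.1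
      refine ⟨p' - (y - x), ⟨h3, ?_⟩, by ring⟩
      have h4 := hshift (p' - (y - x)) h3 (by rw [sub_add_cancel]; exact hp'.1)
      rw [sub_add_cancel] at h4
      have e : Φ (p' - (y - x)) - v = Φ p' - (v + τ) := by
        rw [h4]; abel
      rw [e]; exact hp'.2
    set t : ℂ := (M : ℂ) * (y - x) - E τ with ht
    have hu : ∀ p ∈ N v, u (p + (y - x)) = u p + t := by
      intro p hp
      simp only [u]
      rw [hshift p hp.1 (hfwd p hp).1, Eadd, ht]
      ring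
    have himg : u '' N (v + τ) = (fun z => z + t) '' (u '' N v) := by
      ext z
      constructor
      · rintro ⟨p', hp', rfl⟩
        obtain ⟨p, hp, rfl⟩ := hbwd p' hp'
        exact ⟨u p, ⟨p, hp, rfl⟩, (hu p hp).symm⟩
      · rintro ⟨_, ⟨p, hp, rfl⟩, rfl⟩
        exact ⟨p + (y - x), hfwd p hp, hu p hp⟩
    have hcc : c (u '' N (v + τ)) = c (u '' N v) + t := by
      rw [himg]
      exact hc2 (u '' N v) t ((hNfin v).image u) ((hNne v).image u)
    simp only [g]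
    rw [hcc, Eadd, ht]
    field_simp
    ring

end Pool.Agent.K4H72.Til
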